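import Mathlib

set_option autoImplicit false

namespace Pool.Agent.Results.MP_3f07b9_an.No

open Finset

/-- The mean of a vector. -/
noncomputable def mean {n : ℕ} (x : Fin n → ℝ) : ℝ := (∑ k, x k) / n

/-- The Pearson correlation of two vectors. -/
noncomputable def corr {n : ℕ} (x y : Fin n → ℝ) : ℝ :=
  (∑ k, (x k - mean x) * (y k - mean y)) /
    Real.sqrt ((∑ k, (x k - mean x) ^ 2) * ∑ k, (y k - mean y) ^ 2)

/-- The correlation map: the matrix of correlations between the rows. -/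
noncomputable def C {n : ℕ} (A : Matrix (Fin n) (Fin n) ℝ) : Matrix (Fin n) (Fin n) ℝ :=
  Matrix.of fun i j => corr (A i) (A j)

noncomputable def ss {n : ℕ} (x : Fin n → ℝ) : ℝ := ∑ k, (x k - mean x) ^ 2

noncomputable def nz {n : ℕ} (x : Fin n → ℝ) : Fin n → ℝ :=
  fun k => (x k - mean x) / Real.sqrt (ss x)

lemma ss_pos {n : ℕ} (x : Fin n → ℝ) (h : ∃ j l, x j ≠ x l) : 0 < ss x := by
  obtain ⟨j, l, hjl⟩ := h
  have hnn : ∀ k ∈ (univ : Finset (Fin n)), 0 ≤ (x k - mean x) ^ 2 := fun k _ => sq_nonneg _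
  rcases (Finset.sum_nonneg hnn).lt_or_eq with h | h
  · exact h
  · exfalso
    have h0 := (Finset.sum_eq_zero_iff_of_nonneg hnn).1 h.symm
    have h1 := pow_eq_zero_iff (two_ne_zero) |>.1 (h0 j (mem_univ _))
    have h2 := pow_eq_zero_iff (two_ne_zero) |>.1 (h0 l (mem_univ _))
    exact hjl (by linarith)

lemma corr_eq {n : ℕ} (x y : Fin n → ℝ) (hx : 0 < ss x) :
    corr x y = ∑ k, nz x k * nz y k := by
  have : corr x y = (∑ k, (x k - mean x) * (y k - mean y)) / Real.sqrt (ss x * ss y) := rfl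
  rw [this, Real.sqrt_mul hx.le, Finset.sum_div]
  refine Finset.sum_congr rfl fun k _ => ?_
  simp only [nz]
  rw [div_mul_div_comm]

lemma nz_sq {n : ℕ} (x : Fin n → ℝ) (hx : 0 < ss x) : ∑ k, nz x k ^ 2 = 1 := by
  simp only [nz, div_pow, Real.sq_sqrt hx.le]
  rw [← Finset.sum_div]
  exact div_self hx.ne'

lemma nz_sum {n : ℕ} (x : Fin n → ℝ) (hn : 0 < n) : ∑ k, nz x k = 0 := by
  simp only [nz]
  rw [← Finset.sum_div, Finset.sum_sub_distrib]
  have hn' : (n : ℝ) ≠ 0 := by exact_mod_cast hn.ne'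
  have : ∑ _k : Fin n, mean x = ∑ k, x k := by
    simp only [Finset.sum_const, card_univ, Fintype.card_fin, nsmul_eq_mul, mean]
    field_simp
  rw [this]; simp

lemma dist_eq {n : ℕ} (x y : Fin n → ℝ) (hx : 0 < ss x) (hy : 0 < ss y) :
    ∑ k, (nz x k - nz y k) ^ 2 = 2 - 2 * corr x y := by
  rw [corr_eq x y hx]
  have h1 := nz_sq x hx
  have h2 := nz_sq y hy
  have : ∑ k, (nz x k - nz y k) ^ 2
      = ∑ k, nz x k ^ 2 + ∑ k, nz y k ^ 2 - 2 * ∑ k, nz x k * nz y k := by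
    rw [Finset.mul_sum, ← Finset.sum_add_distrib, ← Finset.sum_sub_distrib]
    refine Finset.sum_congr rfl fun k _ => by ring
  rw [this, h1, h2]; ring

def P {n : ℕ} (A : Matrix (Fin n) (Fin n) ℝ) : Prop :=
  (∀ i, A i i = 1) ∧ (∀ i j, A i j ≤ 1) ∧ ∀ i, ∃ j l, A i j ≠ A i l

lemma two_le {n : ℕ} (d : Fin n → ℝ) (j k : Fin n) :
    (d k - d j) ^ 2 ≤ 2 * ∑ l, d l ^ 2 := by
  by_cases h : k = j
  · subst h
    have : 0 ≤ ∑ l, d l ^ 2 := Finset.sum_nonneg fun l _ => sq_nonneg _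
    simpa using this
  · have h1 : ∑ l ∈ ({k, j} : Finset (Fin n)), d l ^ 2 ≤ ∑ l, d l ^ 2 :=
      Finset.sum_le_sum_of_subset_of_nonneg (subset_univ _) fun l _ _ => sq_nonneg _
    rw [Finset.sum_pair h] at h1
    nlinarith [sq_nonneg (d k + d j)]

lemma gap {n : ℕ} (A : Matrix (Fin n) (Fin n) ℝ) (hA : P A) (i : Fin n) :
    ∃ j, C A i j ≤ 1 - 1 / (4 * n) := by
  obtain ⟨h1, h2, h3⟩ := hA
  have hs : ∀ i, 0 < ss (A i) := fun i => ss_pos _ (h3 i)
  have hn : 0 < n := Fin.pos i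
  have hn' : (0 : ℝ) < n := by exact_mod_cast hn
  by_contra hcon
  push Not at hcon
  set w := nz (A i) with hw
  have hmax : ∀ j k, nz (A j) k ≤ nz (A j) j := by
    intro j k
    simp only [nz]
    apply div_le_div_of_nonneg_right _ (Real.sqrt_nonneg _)
    have := h1 j
    have := h2 j k
    linarith
  have hone : ∀ j k, ∃ p : ℝ, w k - w j ≤ p ∧ p ^ 2 ≤ 1 / n := by
    intro j k
    refine ⟨(w k - nz (A j) k) - (w j - nz (A j) j), by linarith [hmax j k], ?_⟩
    have h4 := two_le (fun l => w l - nz (A j) l) j k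
    have h5 := dist_eq (A i) (A j) (hs i) (hs j)
    have h6 : 1 - 1 / (4 * (n : ℝ)) < corr (A i) (A j) := hcon j
    have h7 : 1 / (4 * (n : ℝ)) = (1 / n) / 4 := by field_simp
    rw [h5] at h4
    rw [h7] at h6
    linarith
  have hsq : ∀ j k, (w k - w j) ^ 2 ≤ 1 / n := by
    intro j k
    obtain ⟨p, hp, hp2⟩ := hone j k
    obtain ⟨q, hq, hq2⟩ := hone k j
    rcases le_total 0 (w k - w j) with h | h
    · nlinarith
    · nlinarith
  have hsum : ∑ j, ∑ k, (w k - w j) ^ 2 ≤ ∑ _j : Fin n, ∑ _k : Fin n, (1 / n : ℝ) :=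
    Finset.sum_le_sum fun j _ => Finset.sum_le_sum fun k _ => hsq j k
  have e1 : ∑ k, w k ^ 2 = 1 := nz_sq _ (hs i)
  have e2 : ∑ k, w k = 0 := nz_sum _ hn
  have e3 : ∀ j, ∑ k, (w k - w j) ^ 2 = 1 + n * w j ^ 2 := by
    intro j
    have : ∑ k, (w k - w j) ^ 2
        = ∑ k, w k ^ 2 - 2 * w j * ∑ k, w k + ∑ _k : Fin n, w j ^ 2 := by
      rw [Finset.mul_sum, ← Finset.sum_sub_distrib, ← Finset.sum_add_distrib]
      refine Finset.sum_congr rfl fun k _ => by ring
    rw [this, e1, e2]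
    simp
  simp only [e3] at hsum
  rw [Finset.sum_add_distrib, ← Finset.mul_sum, e1] at hsum
  simp only [Finset.sum_const, card_univ, Fintype.card_fin, nsmul_eq_mul] at hsum
  have : (n : ℝ) * (n * (1 / n)) = n := by field_simp
  rw [this] at hsum
  linarith

lemma step {n : ℕ} (A : Matrix (Fin n) (Fin n) ℝ) (hA : P A) : P (C A) := by
  have hs : ∀ i, 0 < ss (A i) := fun i => ss_pos _ (hA.2.2 i)
  have hd : ∀ i, C A i i = 1 := by
    intro i
    have h := dist_eq (A i) (A i) (hs i) (hs i)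
    simp only [sub_self, ne_eq, OfNat.ofNat_ne_zero, not_false_eq_true, zero_pow,
      Finset.sum_const_zero] at h
    show corr (A i) (A i) = 1
    linarith
  refine ⟨hd, fun i j => ?_, fun i => ?_⟩
  · have h := dist_eq (A i) (A j) (hs i) (hs j)
    have : 0 ≤ ∑ k, (nz (A i) k - nz (A j) k) ^ 2 := Finset.sum_nonneg fun k _ => sq_nonneg _
    show corr (A i) (A j) ≤ 1
    linarith
  · obtain ⟨j, hj⟩ := gap A hA i
    have hn' : (0 : ℝ) < n := by exact_mod_cast Fin.pos i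
    have : 0 < 1 / (4 * (n : ℝ)) := by positivity
    exact ⟨i, j, by rw [hd i]; linarith [hj] ⟩

lemma start {n : ℕ} (A : Matrix (Fin n) (Fin n) ℝ) (hpsd : A.PosSemidef)
    (hdiag : ∀ i, A i i = 1) (hne : A ≠ Matrix.of fun _ _ => 1) : P A := by
  have hsym : ∀ i j, A j i = A i j := by
    intro i j
    have := hpsd.isHermitian.apply i j
    simpa using this
  have hq : ∀ x : Fin n → ℝ, 0 ≤ x ⬝ᵥ (A.mulVec x) := by
    intro x
    have := hpsd.dotProduct_mulVec_nonneg x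
    simpa using this
  have hle : ∀ i j, A i j ≤ 1 := by
    intro i j
    have := hq (Pi.single i 1 - Pi.single j 1)
    simp only [Matrix.mulVec_sub, sub_dotProduct, dotProduct_sub, Matrix.mulVec_single_one,
      single_one_dotProduct, Matrix.col_apply] at this
    have h1 := hdiag i
    have h2 := hdiag j
    have h3 := hsym i j
    linarith
  refine ⟨hdiag, hle, fun i => ?_⟩
  by_contra hcon
  push Not at hcon
  apply hne
  ext j k
  have hi : ∀ l, A i l = 1 := fun l => (hcon l i).trans (hdiag i)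
  have := hq ((Pi.single j 1 - Pi.single i 1) + (Pi.single k 1 - Pi.single i 1))
  simp only [Matrix.mulVec_sub, Matrix.mulVec_add, sub_dotProduct, dotProduct_sub,
    add_dotProduct, dotProduct_add, Matrix.mulVec_single_one,
    single_one_dotProduct, Matrix.col_apply] at this
  have a1 := hi j
  have a2 := hi k
  have a3 := hi i
  have a4 := hsym i j
  have a5 := hsym i k
  have a6 := hsym j k
  have a7 := hdiag j
  have a8 := hdiag k
  have a9 := hle j k
  simp only [Matrix.of_apply]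
  linarith

theorem result (n : ℕ) (A₀ : Matrix (Fin n) (Fin n) ℝ) (hpsd : A₀.PosSemidef)
    (hdiag : ∀ i, A₀ i i = 1) (hne : A₀ ≠ Matrix.of fun _ _ => 1) :
    (∀ k i, ∃ j l, (C^[k] A₀) i j ≠ (C^[k] A₀) i l) ∧
    (∀ k, 1 ≤ k → ∀ i, ∃ j, (C^[k] A₀) i j ≤ 1 - 1 / (4 * n)) ∧
    ∃ δ : ℝ, 0 < δ ∧ ∀ k, ∃ i j, δ ≤ |(C^[k] A₀) i j - 1| := by
  have hP : ∀ k, P (C^[k] A₀) := by
    intro k
    induction k with
    | zero => exact start A₀ hpsd hdiag hne
    | succ k ih => rw [Function.iterate_succ_apply']; exact step _ ih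
  have h2 : ∀ k, 1 ≤ k → ∀ i, ∃ j, (C^[k] A₀) i j ≤ 1 - 1 / (4 * n) := by
    intro k hk i
    obtain ⟨m, rfl⟩ : ∃ m, k = m + 1 := ⟨k - 1, by omega⟩
    rw [Function.iterate_succ_apply']
    exact gap _ (hP m) i
  refine ⟨fun k i => (hP k).2.2 i, h2, ?_⟩
  have hex : ∃ i j, A₀ i j ≠ 1 := by
    by_contra hcon
    push Not at hcon
    exact hne (by ext i j; simp [hcon i j])
  obtain ⟨i, j, hij⟩ := hex
  have hn' : (0 : ℝ) < n := by exact_mod_cast Fin.pos i
  have hp : 0 < 1 / (4 * (n : ℝ)) := by positivity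
  refine ⟨min |A₀ i j - 1| (1 / (4 * n)), lt_min (abs_pos.2 (sub_ne_zero.2 hij)) hp, ?_⟩
  intro k
  rcases Nat.eq_zero_or_pos k with rfl | hk
  · exact ⟨i, j, min_le_left _ _⟩
  · obtain ⟨l, hl⟩ := h2 k hk i
    refine ⟨i, l, (min_le_right _ _).trans ?_⟩
    rw [abs_sub_comm]
    exact le_trans (by linarith) (le_abs_self _)

end Pool.Agent.Results.MP_3f07b9_an.No
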